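import Pool.Agent.TH942.OS.Curve
import Pool.Agent.TH942.RZ.Curve
import Pool.Agent.TH941.Newform

/-!
# The original Birch and Swinnerton-Dyer product with an arbitrarily light smoothing

Let `E : y² = x³ + a x + b` be an elliptic curve over `ℚ`, `a, b ∈ ℤ`, `N_p = #E(𝔽_p)`, let `F` be the
entire continuation of the incomplete `L`-series (the Euler factors at the primes dividing `2Δ` are removed),
`m = ord_{s=1} F`, and let `r` be the rank of `E(ℚ)`.  Birch and Swinnerton-Dyer were led to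
their conjecture by the growth of `∏_{p ≤ X} N_p/p`: the expectation is `C (log X)^r`.  With the
sharp cut-off this is stronger than the Riemann hypothesis for `F` (Goldfeld 1982, Kuo-Murty, Conrad 2005).
Here the sharp cut-off is replaced by weights: for a function `w` on `(0, 1]` let

`S_w(X) = ∑_{p ≤ X, p ∤ 2Δ} w(log p / log X) log (N_p / p)`,

for instance the Riesz means with `w(u) = (1 - u)^k`, `k > 0` arbitrarily small.  `w` is only assumed to
be bounded, measurable, not zero almost everywhere near `1`, with `∫_0^1 |w(u) - 1| du/u < ∞`.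

1. If `S_w(X) = O(X^α)` for ONE such `w`, then `F` has no zeros with `Re s > 1 + α`.
2. If `S_w(X) / log log X → ρ` for ONE such `w`, then `F` has no zeros with `Re s > 1` and `ρ = m`. For the
  Riesz means of all orders `k > 0` also the converse holds, with the error term `O(1)`.
3. One-sided bounds: if `S_w(X) ≤ (ρ + o(1)) log log X` for ONE such `w ≥ 0`, then `F` has no zeros with
  `Re s > 1` and `m ≤ ρ`. For the Riesz means of all orders `k > 0` also the converse holds.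
4. If `F` has no zeros with `Re s > 1`, then for the Riesz mean of every order `k > 0`
  `exp S_w(X) ∼ √2 e^{-mψ(k+1)} (m! / F^{(m)}(1)) (log X)^m`, `ψ = Γ'/Γ`.

In 4 and in the converse directions of 2 and 3 the theorem of Rankin and Selberg and a bound for `F` in the half
plane `Re s > 1` are used; both are derived from the newform `f` of the curve. In 1 and in
the direct parts of 2 and 3 only the continuation of `F` is used.

So the rank form of the conjecture together with the Riemann hypothesis is EQUIVALENT to the expected growth of the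
product with the Riesz smoothing of any order `k > 0`, and already a one-sided bound
`S_w(X) ≤ (r + o(1)) log log X` is equivalent to the Riemann hypothesis together with `ord_{s=1} F ≤ r`; this
includes a one-sided form of Goldfeld's theorem (`w = 1`): if `∏_{p ≤ X} N_p/p ≤ (log X)^{r + o(1)}`, then the
Riemann hypothesis holds for `F` and `ord_{s=1} F ≤ r`.

The theorems on general weights are in `Pool.Agent.TH942.LS`, `Pool.Agent.TH942.OS`, the limit of the Riesz
means in `Pool.Agent.TH942.RZ`; the theorem of Rankin and Selberg is derived from the newform in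
`Pool.Agent.TH941`.
-/

set_option autoImplicit false

namespace Pool.Agent.Results.MP_696deb_nt.RieszLaw

open Filter Topology Set MeasureTheory Classical CongruenceSubgroup UpperHalfPlane
open scoped MatrixGroups

/-- The rank of the group of rational points of `y² = x³ + a x + b`. -/
noncomputable def rank (a b : ℤ) : ℕ :=
  Module.finrank ℤ
    (WeierstrassCurve.Affine.Point
      (WeierstrassCurve.toAffine
        ({ a₁ := 0, a₂ := 0, a₃ := 0, a₄ := (a : ℚ), a₆ := (b : ℚ) } : WeierstrassCurve ℚ)))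

/-- `N_p`: the number of points of `y² = x³ + a x + b` modulo `p`, with the point at infinity. -/
noncomputable def numPoints (a b : ℤ) (p : ℕ) : ℕ :=
  Nat.card {q : ZMod p × ZMod p // q.2 ^ 2 = q.1 ^ 3 + (a : ZMod p) * q.1 + (b : ZMod p)} + 1

/-- `p` is a prime that does not divide `2 Δ`, where `Δ = -4 a³ - 27 b²`. -/
def Good (a b : ℤ) (p : ℕ) : Prop :=
  p.Prime ∧ ¬ ((p : ℤ) ∣ 2 * (-4 * a ^ 3 - 27 * b ^ 2))

/-- `F` is an entire function which for `Re s > 3/2` is the incomplete `L`-series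
`∏_{p ∤ 2Δ} (1 - a_p p^{-s} + p^{1-2s})⁻¹`, `a_p = p + 1 - N_p`, of `y² = x³ + a x + b`. -/
def IsLSeries (a b : ℤ) (F : ℂ → ℂ) : Prop :=
  Differentiable ℂ F ∧ ∀ s : ℂ, (3 : ℝ) / 2 < s.re →
    HasProd (fun p : ℕ => if Good a b p then
      (1 - ((p : ℂ) + 1 - (numPoints a b p : ℂ)) * (p : ℂ) ^ (-s) + (p : ℂ) ^ (1 - 2 * s))⁻¹ else 1)
      (F s)

/-- The `n`-th Fourier coefficient of `f`. -/
noncomputable def coef {N : ℕ} (f : CuspForm (Gamma0 N : Subgroup (GL (Fin 2) ℝ)) 2) (n : ℕ) : ℂ :=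
  (qExpansion 1 f).coeff n

/-- `f ∈ S_2(Γ₀(N))` is the newform of the elliptic curve `E : y² = x³ + a x + b` of conductor `N`: the
Fourier coefficients `c(n)` of `f` are real with `c(1) = 1`, they satisfy the Hecke relations
`c(mn) = c(m) c(n)` for coprime `m`, `n` and `c(p^(j+2)) = c(p) c(p^(j+1)) - p c(p^j)` (without the last
term if `p ∣ N`), `c(p) = a_p = p + 1 - N_p` for all primes `p ∤ 2Δ`, `|c(p)| ≤ 2 √p` for all
`p ∤ N` (Hasse) and `c(p) = 0, 1, -1` for `p ∣ N`. -/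
structure IsNewformOf (a b : ℤ) (N : ℕ) (f : CuspForm (Gamma0 N : Subgroup (GL (Fin 2) ℝ)) 2) :
    Prop where
  one : coef f 1 = 1
  real : ∀ n, (coef f n).im = 0
  mul : ∀ m n : ℕ, Nat.Coprime m n → coef f (m * n) = coef f m * coef f n
  pow : ∀ p j : ℕ, p.Prime → coef f (p ^ (j + 2)) = coef f p * coef f (p ^ (j + 1)) -
      (if p ∣ N then 0 else (p : ℂ) * coef f (p ^ j))
  points : ∀ p : ℕ, Good a b p → coef f p = (p : ℂ) + 1 - (numPoints a b p : ℂ)
  good : ∀ p : ℕ, p.Prime → ¬ p ∣ N → ‖coef f p‖ ≤ 2 * Real.sqrt p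
  bad : ∀ p : ℕ, p.Prime → p ∣ N → coef f p = 0 ∨ coef f p = 1 ∨ coef f p = -1

/-- `S_w(X) = ∑_{p ≤ X, p ∤ 2Δ} w(log p / log X) log (N_p / p)` -/
noncomputable def S (a b : ℤ) (w : ℝ → ℝ) (X : ℝ) : ℝ :=
  ∑ p ∈ (Finset.range (⌊X⌋₊ + 1)).filter (Good a b),
    w (Real.log p / Real.log X) * Real.log ((numPoints a b p : ℝ) / p)

/-- The admissible weights: bounded and measurable, `0` for `u > 1`, not zero almost everywhere to the left
of `1`, with `∫_0^1 |w(u) - 1| du/u < ∞`. -/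
structure IsWeight (w : ℝ → ℝ) : Prop where
  measurable : Measurable w
  bounded : ∃ W : ℝ, ∀ u, |w u| ≤ W
  support : ∀ u, 1 < u → w u = 0
  top : ∀ κ : ℝ, κ < 1 → ¬ ∀ᵐ u : ℝ, u ∈ Ioo κ 1 → w u = 0
  dini : IntegrableOn (fun u : ℝ => |w u - 1| / u) (Ioo 0 1)

/-- The weight `(1 - u)^k`, `0 < u ≤ 1`, of the Riesz mean of order `k`. -/
noncomputable def riesz (k u : ℝ) : ℝ := if 0 < u ∧ u ≤ 1 then (1 - u) ^ k else 0

/-- `F` has no zeros with `Re s > 1`. -/
def NoZeros (F : ℂ → ℂ) : Prop := ∀ s : ℂ, 1 < s.re → F s ≠ 0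

/-! ### translation -/

open Pool.Agent.TH942.LS (Wt lm cE S_finite)
open Pool.Agent.TH942.RZ (rzv rzw rzv_Wt rzv_top rzv_dini S_rzv curve_riesz growth_newform)
open Pool.Agent.W263.BSD (PhiF pointCount GoodPrime rsSum)

theorem IsWeight.wt {w : ℝ → ℝ} (hw : IsWeight w) : ∃ W : ℝ, Wt w W 1 := by
  obtain ⟨W, hW⟩ := hw.bounded
  exact ⟨W, hw.measurable, hW, one_pos, hw.support⟩

theorem riesz_eq (k : ℝ) : riesz k = rzv k := by
  funext u
  unfold riesz rzv rzw
  by_cases h : 0 < u ∧ u ≤ 1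
  · rw [if_pos h, indicator_of_mem (show u ∈ Ioc (0 : ℝ) 1 from h), max_eq_left (by linarith [h.2])]
  · rw [if_neg h, indicator_of_notMem (show u ∉ Ioc (0 : ℝ) 1 from fun h1 => h h1)]

theorem riesz_weight {k : ℝ} (hk : 0 < k) : IsWeight (riesz k) := by
  rw [riesz_eq]
  have h := rzv_Wt hk
  exact ⟨h.meas, ⟨1, h.bd⟩, h.supp, rzv_top, rzv_dini hk⟩

theorem riesz_nonneg (k u : ℝ) : 0 ≤ riesz k u := by
  unfold riesz
  split_ifs with h
  · exact Real.rpow_nonneg (by linarith [h.2]) _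
  · exact le_rfl

theorem S_eq {a b : ℤ} {w : ℝ → ℝ} {W : ℝ} (hw : Wt w W 1) {X : ℝ} (hX : 1 < X) :
    S a b w X = Pool.Agent.TH942.LS.S lm (cE a b) w (Real.log X) := by
  rw [S_finite (a := a) (b := b) w hw hX]
  unfold S
  rw [Real.rpow_one]
  refine Finset.sum_congr rfl fun p _ => ?_
  unfold numPoints
  push_cast
  rfl

theorem ls_eq {a b : ℤ} {F : ℂ → ℂ} (h : IsLSeries a b F) : Pool.Agent.W263.BSD.IsLSeries a b F := by
  refine ⟨h.1, fun s hs => ?_⟩
  refine (congrArg (fun g => HasProd g (F s)) (funext fun p => ?_)).mp (h.2 s hs)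
  unfold numPoints
  push_cast
  rw [add_sub_add_right_eq_sub]
  rfl

theorem hecke {a b : ℤ} {N : ℕ} {f : CuspForm (Gamma0 N : Subgroup (GL (Fin 2) ℝ)) 2}
    (hf : IsNewformOf a b N f) : Pool.Agent.TH941.Hecke f where
  one := hf.one
  real := hf.real
  mul := hf.mul
  pow := hf.pow
  good := hf.good
  bad := fun p hp h => by
    rcases hf.bad p hp h with h1 | h1 | h1
    · have h2 : ‖coef f p‖ ≤ 1 := by rw [h1]; simp
      exact h2
    · have h2 : ‖coef f p‖ ≤ 1 := by rw [h1]; simp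
      exact h2
    · have h2 : ‖coef f p‖ ≤ 1 := by rw [h1]; simp
      exact h2

theorem belongs {a b : ℤ} {N : ℕ} {f : CuspForm (Gamma0 N : Subgroup (GL (Fin 2) ℝ)) 2}
    (hf : IsNewformOf a b N f) : ∀ p : ℕ, GoodPrime a b p →
      coef f p = (p : ℂ) - (pointCount a b p : ℂ) := by
  intro p hp
  have h1 := hf.points p hp
  unfold numPoints at h1
  push_cast at h1
  rw [add_sub_add_right_eq_sub] at h1
  exact h1

theorem nz_iff {a b : ℤ} {F : ℂ → ℂ} : NoZeros F ↔ ∀ s : ℂ, 0 < s.re → PhiF a b F s ≠ 0 := by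
  constructor
  · intro h s hs
    unfold PhiF
    exact mul_ne_zero (h _ (by simpa using hs)) (Pool.Agent.TH942.SL.small_ne hs)
  · intro h s hs h0
    refine h (s - 1) (by simpa using hs) ?_
    unfold PhiF
    rw [add_sub_cancel, h0, zero_mul]

theorem loglog_tendsto : Tendsto (fun X : ℝ => Real.log (Real.log X)) atTop atTop :=
  Real.tendsto_log_atTop.comp Real.tendsto_log_atTop

/-- an estimate `O(1)` gives the limit of the quotient -/
theorem lim_of_bdd {g : ℝ → ℝ} {ρ M : ℝ}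
    (h : ∀ᶠ X : ℝ in atTop, |g X - ρ * Real.log (Real.log X)| ≤ M) :
    Tendsto (fun X : ℝ => g X / Real.log (Real.log X)) atTop (𝓝 ρ) := by
  have h4 : Tendsto (fun X : ℝ => M / Real.log (Real.log X)) atTop (𝓝 0) :=
    tendsto_const_nhds.div_atTop loglog_tendsto
  rw [tendsto_iff_norm_sub_tendsto_zero]
  refine squeeze_zero' (Eventually.of_forall fun Y => norm_nonneg _) ?_ h4
  filter_upwards [h, loglog_tendsto.eventually_ge_atTop 1] with Y h5 h6
  have h7 : 0 < Real.log (Real.log Y) := by linarith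
  rw [Real.norm_eq_abs]
  have e1 : g Y / Real.log (Real.log Y) - ρ =
      (g Y - ρ * Real.log (Real.log Y)) / Real.log (Real.log Y) := by
    field_simp
  rw [e1, abs_div, abs_of_pos h7]
  exact div_le_div_of_nonneg_right h5 h7.le

/-- the transfer of a limit to the logarithmic scale -/
theorem lim_log {a b : ℤ} {w : ℝ → ℝ} {W : ℝ} (hw : Wt w W 1) {ρ : ℝ}
    (h : Tendsto (fun X : ℝ => S a b w X / Real.log (Real.log X)) atTop (𝓝 ρ)) :
    Tendsto (fun T => Pool.Agent.TH942.LS.S lm (cE a b) w T / Real.log T) atTop (𝓝 ρ) := by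
  refine (h.comp Real.tendsto_exp_atTop).congr' ?_
  filter_upwards [eventually_gt_atTop 0] with T hT
  simp only [Function.comp_apply]
  rw [S_eq hw (Real.one_lt_exp_iff.2 hT), Real.log_exp]

/-- a statement for all large `T = log X` from one for all large `X` -/
theorem ev_exp {P : ℝ → Prop} (h : ∀ᶠ X : ℝ in atTop, P X) : ∀ᶠ T : ℝ in atTop, P (Real.exp T) :=
  Real.tendsto_exp_atTop.eventually h

/-- the omega theorem -/
theorem omega_part {a b : ℤ} {F : ℂ → ℂ} (hF : IsLSeries a b F) {w : ℝ → ℝ} (hw : IsWeight w)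
    {α C : ℝ} (hα : 0 ≤ α) (hS : ∀ᶠ X : ℝ in atTop, |S a b w X| ≤ C * X ^ α) {s : ℂ}
    (hs : 1 + α < s.re) : F s ≠ 0 := by
  intro h0
  obtain ⟨W, hW⟩ := hw.wt
  refine Pool.Agent.TH942.LS.omega (ls_eq hF) hW hw.top (s := s) (by linarith) h0
    (α := α) (C := C) (by linarith) ?_
  filter_upwards [hS] with X h1
  refine le_trans (le_of_eq ?_) h1
  congr 1
  unfold S
  rw [Real.rpow_one]
  refine Finset.sum_congr rfl fun p _ => ?_
  unfold numPoints
  push_cast
  rfl

/-- a function with finite growth rate is `O(X^ε)` -/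
theorem pow_of_lim {g : ℝ → ℝ} {ρ : ℝ}
    (h : Tendsto (fun X : ℝ => g X / Real.log (Real.log X)) atTop (𝓝 ρ)) {α : ℝ} (hα : 0 < α) :
    ∀ᶠ X : ℝ in atTop, |g X| ≤ (|ρ| + 1) * X ^ α := by
  have h1 : ∀ᶠ X : ℝ in atTop, |g X / Real.log (Real.log X)| ≤ |ρ| + 1 :=
    h.abs.eventually_le_const (by linarith)
  have h2 : ∀ᶠ X : ℝ in atTop, Real.log X ≤ X ^ α := by
    filter_upwards [(isLittleO_log_rpow_atTop hα).bound (one_pos), eventually_ge_atTop 1] with X h3 h4
    rw [Real.norm_eq_abs, Real.norm_eq_abs, one_mul,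
      abs_of_nonneg (Real.rpow_nonneg (by linarith) _)] at h3
    exact (le_abs_self _).trans h3
  filter_upwards [h1, h2, loglog_tendsto.eventually_ge_atTop 1, eventually_gt_atTop 1] with X h3 h4 h5 h6
  have h7 : 0 < Real.log (Real.log X) := by linarith
  have h8 : 0 < Real.log X := Real.log_pos h6
  have h9 : Real.log (Real.log X) ≤ Real.log X :=
    (Real.log_le_sub_one_of_pos h8).trans (by linarith)
  rw [abs_div, abs_of_pos h7, div_le_iff₀ h7] at h3
  calc |g X| ≤ (|ρ| + 1) * Real.log (Real.log X) := h3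
    _ ≤ (|ρ| + 1) * X ^ α := mul_le_mul_of_nonneg_left (h9.trans h4) (by positivity)

/-- the Riesz means in the exponential scale -/
theorem riesz_lim {a b : ℤ} {k : ℝ} (hk : 0 < k) {m : ℕ} {κ : ℝ}
    (h : Tendsto (fun T : ℝ => Pool.Agent.TH942.LS.S lm (cE a b) (rzw k) T - m * Real.log T) atTop
      (𝓝 κ)) :
    Tendsto (fun X : ℝ => S a b (riesz k) X - m * Real.log (Real.log X)) atTop (𝓝 κ) := by
  refine (h.comp Real.tendsto_log_atTop).congr' ?_
  filter_upwards [eventually_gt_atTop 1] with X hX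
  have hT : 0 < Real.log X := Real.log_pos hX
  simp only [Function.comp_apply]
  rw [riesz_eq, S_eq (rzv_Wt hk) hX, S_rzv hk hT]

/-- **The original product of Birch and Swinnerton-Dyer with an arbitrarily light smoothing.** -/
theorem result (a b : ℤ) (hΔ : 4 * a ^ 3 + 27 * b ^ 2 ≠ 0) (F : ℂ → ℂ) (hF : IsLSeries a b F) :
    ∃ m : ℕ, analyticOrderAt F 1 = m ∧
    -- one weight detects the zeros
    (∀ w : ℝ → ℝ, IsWeight w → ∀ α : ℝ, 0 ≤ α →
      (∃ C : ℝ, ∀ᶠ X : ℝ in atTop, |S a b w X| ≤ C * X ^ α) → ∀ s : ℂ, 1 + α < s.re → F s ≠ 0) ∧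
    -- one weight determines the order
    (∀ w : ℝ → ℝ, IsWeight w → ∀ ρ : ℝ,
      Tendsto (fun X : ℝ => S a b w X / Real.log (Real.log X)) atTop (𝓝 ρ) →
        NoZeros F ∧ (m : ℝ) = ρ) ∧
    -- a one-sided bound for one weight
    (∀ w : ℝ → ℝ, IsWeight w → (∀ u, 0 ≤ w u) → ∀ ρ : ℝ,
      (∀ ε : ℝ, 0 < ε → ∀ᶠ X : ℝ in atTop, S a b w X ≤ (ρ + ε) * Real.log (Real.log X)) →
        NoZeros F ∧ (m : ℝ) ≤ ρ) ∧
    -- the laws for the Riesz means, with the newform of the curve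
    ∀ (N : ℕ) [NeZero N] (f : CuspForm (Gamma0 N : Subgroup (GL (Fin 2) ℝ)) 2), IsNewformOf a b N f →
      -- the two-sided law
      (∀ ρ : ℝ, List.TFAE [
        NoZeros F ∧ (m : ℝ) = ρ,
        ∃ w : ℝ → ℝ, IsWeight w ∧
          Tendsto (fun X : ℝ => S a b w X / Real.log (Real.log X)) atTop (𝓝 ρ),
        ∀ k : ℝ, 0 < k → ∃ M : ℝ, ∀ᶠ X : ℝ in atTop,
          |S a b (riesz k) X - ρ * Real.log (Real.log X)| ≤ M]) ∧
      -- the one-sided law
      (∀ ρ : ℝ, List.TFAE [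
        NoZeros F ∧ (m : ℝ) ≤ ρ,
        ∃ w : ℝ → ℝ, IsWeight w ∧ (∀ u, 0 ≤ w u) ∧
          ∀ ε : ℝ, 0 < ε → ∀ᶠ X : ℝ in atTop, S a b w X ≤ (ρ + ε) * Real.log (Real.log X),
        ∀ k : ℝ, 0 < k → ∃ M : ℝ, ∀ᶠ X : ℝ in atTop,
          S a b (riesz k) X ≤ ρ * Real.log (Real.log X) + M]) ∧
      -- the constant
      (NoZeros F → ∀ k : ℝ, 0 < k → ∃ κ : ℝ,
        Tendsto (fun X : ℝ => S a b (riesz k) X - m * Real.log (Real.log X)) atTop (𝓝 κ) ∧
        (Real.exp κ : ℂ) * (iteratedDeriv m F 1 / (m.factorial : ℂ)) =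
          ((√2 * Real.exp (-(m * (deriv Real.Gamma (k + 1) / Real.Gamma (k + 1)))) : ℝ) : ℂ)) ∧
      -- the rank of the group of rational points
      ((NoZeros F ∧ m = rank a b) ↔ ∀ k : ℝ, 0 < k → ∃ M : ℝ, ∀ᶠ X : ℝ in atTop,
        |S a b (riesz k) X - rank a b * Real.log (Real.log X)| ≤ M) ∧
      ((NoZeros F ∧ m ≤ rank a b) ↔ ∃ w : ℝ → ℝ, IsWeight w ∧ (∀ u, 0 ≤ w u) ∧
        ∀ ε : ℝ, 0 < ε → ∀ᶠ X : ℝ in atTop,
          S a b w X ≤ (rank a b + ε) * Real.log (Real.log X)) := by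
  have hF' := ls_eq hF
  obtain ⟨m, hm⟩ := Pool.Agent.W263.BSD.order_finite hF'
  have direct : ∀ w : ℝ → ℝ, IsWeight w → ∀ ρ : ℝ,
      Tendsto (fun X : ℝ => S a b w X / Real.log (Real.log X)) atTop (𝓝 ρ) →
        NoZeros F ∧ (m : ℝ) = ρ := by
    intro w hw ρ hlim
    have hz : NoZeros F := by
      intro s hs
      have hα : 0 < (s.re - 1) / 2 := by linarith
      exact omega_part hF hw hα.le (pow_of_lim hlim hα) (by linarith)
    obtain ⟨W, hW⟩ := hw.wt
    exact ⟨hz, (Pool.Agent.TH942.LS.growth_eq_order hF' (nz_iff.1 hz) hm hW hw.dini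
      (lim_log hW hlim)).symm⟩
  have direct1 : ∀ w : ℝ → ℝ, IsWeight w → (∀ u, 0 ≤ w u) → ∀ ρ : ℝ,
      (∀ ε : ℝ, 0 < ε → ∀ᶠ X : ℝ in atTop, S a b w X ≤ (ρ + ε) * Real.log (Real.log X)) →
        NoZeros F ∧ (m : ℝ) ≤ ρ := by
    intro w hw hw0 ρ hU
    obtain ⟨W, hW⟩ := hw.wt
    have h1 := Pool.Agent.TH942.OS.order_le hF' hm hW hw0 hw.top hw.dini (ρ := ρ) (by
      intro ε hε
      filter_upwards [ev_exp (hU ε hε), eventually_gt_atTop 0] with T h2 h3
      rwa [S_eq hW (Real.one_lt_exp_iff.2 h3), Real.log_exp] at h2)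
    exact ⟨nz_iff.2 h1.1, h1.2⟩
  refine ⟨m, hm, ?_, direct, direct1, ?_⟩
  · rintro w hw α hα ⟨C, hC⟩ s hs
    exact omega_part hF hw hα hC hs
  intro N _ f hf
  have hrs := (hecke hf).rsSum_tendsto hΔ (belongs hf)
  have hgr := growth_newform hΔ hF' (hecke hf) (belongs hf)
  -- the limit
  have lim : NoZeros F → ∀ k : ℝ, 0 < k → ∃ κ : ℝ,
      Tendsto (fun X : ℝ => S a b (riesz k) X - m * Real.log (Real.log X)) atTop (𝓝 κ) ∧
      (Real.exp κ : ℂ) * (iteratedDeriv m F 1 / (m.factorial : ℂ)) =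
        ((√2 * Real.exp (-(m * (deriv Real.Gamma (k + 1) / Real.Gamma (k + 1)))) : ℝ) : ℂ) := by
    intro hz k hk
    obtain ⟨κ, h1, h2⟩ := curve_riesz hΔ hrs hgr hF' hm hz hk
    exact ⟨κ, riesz_lim hk h1, h2⟩
  have bdd : NoZeros F → ∀ k : ℝ, 0 < k → ∃ M : ℝ, ∀ᶠ X : ℝ in atTop,
      |S a b (riesz k) X - (m : ℝ) * Real.log (Real.log X)| ≤ M := by
    intro hz k hk
    obtain ⟨κ, h1, -⟩ := lim hz k hk
    exact ⟨|κ| + 1, h1.abs.eventually_le_const (by linarith)⟩
  have two : ∀ ρ : ℝ, List.TFAE [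
      NoZeros F ∧ (m : ℝ) = ρ,
      ∃ w : ℝ → ℝ, IsWeight w ∧
        Tendsto (fun X : ℝ => S a b w X / Real.log (Real.log X)) atTop (𝓝 ρ),
      ∀ k : ℝ, 0 < k → ∃ M : ℝ, ∀ᶠ X : ℝ in atTop,
        |S a b (riesz k) X - ρ * Real.log (Real.log X)| ≤ M] := by
    intro ρ
    tfae_have 1 → 3 := by
      rintro ⟨hz, rfl⟩ k hk
      exact bdd hz k hk
    tfae_have 3 → 2 := by
      intro h
      obtain ⟨M, hM⟩ := h 1 one_pos
      exact ⟨riesz 1, riesz_weight one_pos, lim_of_bdd hM⟩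
    tfae_have 2 → 1 := by
      rintro ⟨w, hw, hlim⟩
      exact direct w hw ρ hlim
    tfae_finish
  have one : ∀ ρ : ℝ, List.TFAE [
      NoZeros F ∧ (m : ℝ) ≤ ρ,
      ∃ w : ℝ → ℝ, IsWeight w ∧ (∀ u, 0 ≤ w u) ∧
        ∀ ε : ℝ, 0 < ε → ∀ᶠ X : ℝ in atTop, S a b w X ≤ (ρ + ε) * Real.log (Real.log X),
      ∀ k : ℝ, 0 < k → ∃ M : ℝ, ∀ᶠ X : ℝ in atTop,
        S a b (riesz k) X ≤ ρ * Real.log (Real.log X) + M] := by
    intro ρ
    tfae_have 1 → 3 := by
      rintro ⟨hz, hρ⟩ k hk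
      obtain ⟨M, hM⟩ := bdd hz k hk
      refine ⟨M, ?_⟩
      filter_upwards [hM, loglog_tendsto.eventually_ge_atTop 0] with X h1 h2
      have h3 := mul_le_mul_of_nonneg_right hρ h2
      have h4 := le_abs_self (S a b (riesz k) X - (m : ℝ) * Real.log (Real.log X))
      linarith
    tfae_have 3 → 2 := by
      intro h
      obtain ⟨M, hM⟩ := h 1 one_pos
      refine ⟨riesz 1, riesz_weight one_pos, riesz_nonneg 1, fun ε hε => ?_⟩
      filter_upwards [hM, loglog_tendsto.eventually_ge_atTop (|M| / ε)] with X h1 h2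
      rw [div_le_iff₀ hε] at h2
      have h3 := le_abs_self M
      nlinarith [h1, h2, h3]
    tfae_have 2 → 1 := by
      rintro ⟨w, hw, hw0, hU⟩
      exact direct1 w hw hw0 ρ hU
    tfae_finish
  refine ⟨two, one, lim, ?_, ?_⟩
  · have h1 := (two (rank a b : ℝ)).out 0 2
    rw [← h1, Nat.cast_inj]
  · have h1 := (one (rank a b : ℝ)).out 0 1
    rw [← h1, Nat.cast_le]

end Pool.Agent.Results.MP_696deb_nt.RieszLaw
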