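import Pool.Agent.Q5.SC.Main
import Pool.Agent.Results.MP_696deb_nt.ExactCriterion

/-!
# The Birch and Swinnerton-Dyer products over primes with prescribed splitting

Let `E : y² = x³ + a x + b` be an elliptic curve over `ℚ`, `a, b ∈ ℤ`, and let `N_p` be the number of its affine
points modulo `p`. Let `d_1, …, d_k` be nonzero integers and `K = ℚ(√d_1, …, √d_k)`. For a set
`I ⊆ {1, …, k}` let `d_I` be the product of the `d_i`, `i ∈ I`, let `E_I : y² = x³ + a d_I² x + b d_I³` be the quadratic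
twist of `E` by `d_I` and `F_I` its `L`-function (an entire function). The good primes `p ∤ 2 Δ d_1 ⋯ d_k` fall
into the classes `P_ε = {p : (d_i / p) = ε_i for all i}`, `ε ∈ {1, -1}^k`: these are the primes with a given
Frobenius automorphism `σ_ε` in `K`. In each class consider the Birch and Swinnerton-Dyer product with the
rotated weights `ω(p) = 1 / Γ(1 + (1 + iτ) log p / log X)` of the file `ExactCriterion`:

`S_ε(τ, X) = ½ ∑_{p ∈ P_ε} ω(p) log ((N_p + 1) / (2p + 1 - N_p))`      for `ε ≠ 1`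

(`N_p + 1` and `2p + 1 - N_p` are the numbers of points modulo `p` of `E` and of its nontrivial twist), and for
the split primes, `ε = 1`,

`S_1(τ, X) = ∑_{p ∈ P_1} ω(p) log ((N_p + 1) / p) + ½ ∑_{p ∉ P_1} ω(p) log ((N_p + 1) (2p + 1 - N_p) / p²)`,

the sum for the residue fields of `K`, up to the factor `[K : ℚ]` (the residue fields of the second
sum have `p²` elements and contain `(N_p + 1) (2p + 1 - N_p)` points of `E`).

Theorem. If none of the `2^k` functions `F_I` has a zero on the ray `{1 + (1 + iτ) x : x > 0}` (this holds for all but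
finitely many `τ` in each bounded interval), then for every class

`S_ε(τ, X) = 2^{-k} (∑_I ε_I ord_{s=1} F_I) log log X + O(1)`,   `ε_I = ∏_{i ∈ I} ε_i`.

If one of them has a zero on the ray, then for some `x > 0` and all `c < x` at least one of the sums is larger than
`exp (X^c)` in absolute value, for every large `X`. No hypothesis on zeros is made, and no second moments
(Rankin and Selberg) are needed.

Consequently the rank form `ord_{s=1} F_I = rank E_I(ℚ)` holds for ALL the `2^k` twists if and only if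
`Re S_ε(τ, X_n) / log log X_n` tends for all `ε` to

`2^{-k} ∑_I ε_I rank E_I(ℚ) = [K : ℚ]⁻¹ trace (σ_ε | E(K) ⊗ ℚ)`   (for independent `d_i`)

for one `τ` and one sequence `X_n → ∞`, and then `S_ε(τ, X) = [K : ℚ]⁻¹ trace (σ_ε) log log X + O(1)` in all free directions.
So the numbers of points modulo the primes of ONE Frobenius class know the trace of the
Frobenius automorphism on the Mordell-Weil group. The file `ExactCriterion`, used for the `2^k` twists, is
the case `k = 0`. For `k = 1` the sum over the inert primes of `log ((N_p + 1) / (2p + 1 - N_p))` measures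
`rank E(ℚ) - rank E_d(ℚ)`.
-/

set_option autoImplicit false

namespace Pool.Agent.Results.MP_696deb_nt.SplittingClasses

open Pool.Agent.W263.BSD Pool.Agent.Q5.SC Filter Topology Classical

/-- `F` has a zero on the ray `{1 + (1 + iτ) x : x > 0}`. -/
def Blocked (F : ℂ → ℂ) (τ : ℝ) : Prop :=
  ∃ x : ℝ, 0 < x ∧ F (1 + (1 + τ * Complex.I) * x) = 0

/-- The rank of the group of rational points of `y² = x³ + a x + b`. -/
noncomputable def rank (a b : ℤ) : ℕ :=
  Module.finrank ℤ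
    (WeierstrassCurve.Affine.Point
      (WeierstrassCurve.toAffine
        ({ a₁ := 0, a₂ := 0, a₃ := 0, a₄ := (a : ℚ), a₆ := (b : ℚ) } : WeierstrassCurve ℚ)))

/-- The rank of the twist of `y² = x³ + a x + b` by `d_I`. -/
noncomputable def rk {k : ℕ} (a b : ℤ) (d : Fin k → ℤ) (I : Finset (Fin k)) : ℕ :=
  rank (a * dd d I ^ 2) (b * dd d I ^ 3)

/-- **The Birch and Swinnerton-Dyer products over primes with prescribed splitting.** -/
theorem result (a b : ℤ) (hΔ : 4 * a ^ 3 + 27 * b ^ 2 ≠ 0) (k : ℕ) (d : Fin k → ℤ)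
    (hd : ∀ i, d i ≠ 0) (F : Finset (Fin k) → ℂ → ℂ)
    (hF : ∀ I, IsLSeries (a * dd d I ^ 2) (b * dd d I ^ 3) (F I)) :
    (∀ (ε : Fin k → ℤˣ) (τ X : ℝ), 1 < X → Summable fun p : ℕ => ‖term a b d ε τ X p‖) ∧
    (∀ B : ℝ, {τ : ℝ | |τ| ≤ B ∧ ∃ I, Blocked (F I) τ}.Finite) ∧
    (∃ r : Finset (Fin k) → ℕ, (∀ I, analyticOrderAt (F I) 1 = r I) ∧
      ∀ τ : ℝ, (∀ I, ¬ Blocked (F I) τ) → ∀ ε : Fin k → ℤˣ,
        ∃ M : ℝ, ∀ᶠ X : ℝ in atTop, ‖S a b d ε τ X - mean ε r * Real.log (Real.log X)‖ ≤ M) ∧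
    (∀ τ : ℝ, (∃ I, Blocked (F I) τ) → ∃ x : ℝ, 0 < x ∧ ∀ c < x, ∀ᶠ X : ℝ in atTop,
      ∃ ε : Fin k → ℤˣ, Real.exp (X ^ c) ≤ |(S a b d ε τ X).re|) ∧
    List.TFAE [
      ∀ I, analyticOrderAt (F I) 1 = rk a b d I,
      ∃ (τ : ℝ) (X : ℕ → ℝ), Tendsto X atTop atTop ∧ ∀ ε : Fin k → ℤˣ,
        Tendsto (fun n => (S a b d ε τ (X n)).re / Real.log (Real.log (X n))) atTop
          (𝓝 (mean ε (rk a b d))),
      ∀ τ : ℝ, (∀ I, ¬ Blocked (F I) τ) → ∀ ε : Fin k → ℤˣ,
        ∃ M : ℝ, ∀ᶠ X : ℝ in atTop,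
          ‖S a b d ε τ X - mean ε (rk a b d) * Real.log (Real.log X)‖ ≤ M] := by
  have hdd : ∀ I, dd d I ≠ 0 := fun I => Finset.prod_ne_zero_iff.2 fun i _ => hd i
  have hΔI : ∀ I, 4 * (a * dd d I ^ 2) ^ 3 + 27 * (b * dd d I ^ 3) ^ 2 ≠ 0 := by
    intro I
    have e1 : 4 * (a * dd d I ^ 2) ^ 3 + 27 * (b * dd d I ^ 3) ^ 2 =
        (4 * a ^ 3 + 27 * b ^ 2) * dd d I ^ 6 := by ring
    rw [e1]
    exact mul_ne_zero hΔ (pow_ne_zero 6 (hdd I))
  have hEC := fun I => ExactCriterion.result _ _ (hΔI I) (F I) (hF I)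
  have hfin : ∀ B : ℝ, {τ : ℝ | |τ| ≤ B ∧ ∃ I, Blocked (F I) τ}.Finite := by
    intro B
    have h1 : {τ : ℝ | |τ| ≤ B ∧ ∃ I, Blocked (F I) τ} =
        ⋃ I, {τ : ℝ | |τ| ≤ B ∧ ExactCriterion.Blocked (F I) τ} := by
      ext τ
      simp only [Set.mem_ofPred_eq, Set.mem_iUnion]
      constructor
      · rintro ⟨h, I, hI⟩
        exact ⟨I, h, hI⟩
      · rintro ⟨I, h, hI⟩
        exact ⟨h, I, hI⟩
    rw [h1]
    exact Set.finite_iUnion fun I => (hEC I).2.1 B
  choose r hr hlaw using fun I => (hEC I).2.2.1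
  have hfree : ∀ τ : ℝ, (∀ I, ¬ Blocked (F I) τ) → ∀ ε : Fin k → ℤˣ,
      ∃ M : ℝ, ∀ᶠ X : ℝ in atTop, ‖S a b d ε τ X - mean ε r * Real.log (Real.log X)‖ ≤ M :=
    fun τ hτ ε => class_law hd (fun I => hlaw I τ (hτ I)) ε
  have hexists : ∃ τ : ℝ, ∀ I, ¬ Blocked (F I) τ := by
    by_contra hc
    push Not at hc
    have h1 := hfin 1
    have h2 : {τ : ℝ | |τ| ≤ 1 ∧ ∃ I, Blocked (F I) τ} = Set.Icc (-1) 1 := by
      ext τ
      simp only [Set.mem_ofPred_eq, Set.mem_Icc, ← abs_le]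
      exact ⟨fun h => h.1, fun h => ⟨h, hc τ⟩⟩
    rw [h2] at h1
    exact (Set.Icc_infinite (by norm_num : (-1 : ℝ) < 1)) h1
  refine ⟨fun ε τ X hX => term_summable a b d ε τ hX, hfin, ⟨r, hr, hfree⟩, ?_, ?_⟩
  · rintro τ ⟨I, hI⟩
    obtain ⟨x, m, hx, -, -, -, -, h1⟩ := (hEC I).2.2.2.1 τ hI
    exact ⟨x, hx, fun c hc => class_big hd hx I h1 hc⟩
  tfae_have 1 → 3 := by
    intro h τ hτ ε
    have h1 : r = rk a b d := by
      funext I
      have h2 := (hr I).symm.trans (h I)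
      exact_mod_cast h2
    rw [← h1]
    exact hfree τ hτ ε
  tfae_have 3 → 2 := by
    intro h
    obtain ⟨τ, hτ⟩ := hexists
    refine ⟨τ, fun n => n, tendsto_natCast_atTop_atTop, fun ε => ?_⟩
    obtain ⟨M, hM⟩ := h τ hτ ε
    exact (ExactCriterion.quot_of_bdd (f := S a b d ε τ) hM).comp tendsto_natCast_atTop_atTop
  tfae_have 2 → 1 := by
    rintro ⟨τ, X, hX, h⟩ I
    have h1 := twist_of_class hd hX h I
    have h2 := (hEC I).2.2.2.2.out 1 0
    exact h2.1 ⟨τ, X, hX, h1⟩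
  tfae_finish

end Pool.Agent.Results.MP_696deb_nt.SplittingClasses
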