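import Pool.Agent.Q7.TL.Smooth

/-!
# Weighted sums of the traces of Frobenius, the rank form and the Riemann hypothesis

Let `E : y² = x³ + a x + b` be an elliptic curve over `ℚ`, `a, b ∈ ℤ`, `N_p = #E(𝔽_p)`,
`a_p = p + 1 - N_p`, let `F` be the entire continuation of the incomplete `L`-series, `m = ord_{s=1} F`
and `r` the rank of `E(ℚ)`.  The sums of Mestre and Nagao,

`(1 / log X) ∑_{p ≤ X} a_p log p / p`,

are the standard numerical tool for finding curves of large rank.  Kim and Murty (2023) proved that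
if such a sum has a limit, then the Riemann hypothesis holds for `F` and the limit is `1/2 - m`; the
existence of the limit is as deep as the original asymptotic formula of Birch and
Swinnerton-Dyer, which is stronger than the Riemann hypothesis.  Here the sums are weighted,

`T_w(X) = (1 / log X) ∑_{p ≤ X, p ∤ 2Δ} w(log p / log X) a_p log p / p`,

with a bounded measurable weight `w` on `(0, 1]`, `∫_0^1 w = 1`, not zero almost everywhere near `1`; for instance `w = 1`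
(the original sums) or the Riesz weights `w(u) = (k + 1) (1 - u)^k`, `k > 0` arbitrarily small.

1. If `T_w(X) = O(X^α)` for ONE weight `w`, then `F` has no zeros with `Re s > 1 + α`.
2. If `T_w(X) ≥ -C X^α` for ONE weight `w ≥ 0` and all large `X`, then `F` has no zeros with
  `Re s > 1 + α`.
3. (two-sided law) For real `ρ`: the Riemann hypothesis holds for `F` and `m = ρ` if and only if
  `T_w(X) → 1/2 - ρ` for one weight `w`, if and only if this holds for the Riesz weights of all orders `k > 0`.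
4. (one-sided law) The Riemann hypothesis holds for `F` and `m ≤ ρ` if and only if
  `liminf T_w(X) ≥ 1/2 - ρ` for one weight `w ≥ 0`, if and only if this holds for all Riesz weights.
5. The Riemann hypothesis holds for `F` if and only if `T_w` is bounded from BELOW for one weight
  `w ≥ 0`, if and only if `T_w(X) → 1/2 - m` for all Riesz weights; then
  `T_w(X) → (1/2 - m) ∫_0^1 w` also for all twice continuously differentiable `w` with `w(1) = 0`.
6. So the rank form of the conjecture together with the Riemann hypothesis is equivalent to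
  `T_w(X) → 1/2 - r` for the Riesz weights, and the inequality `m ≤ r` together with the Riemann hypothesis is
  equivalent to the one-sided bound `liminf T_w(X) ≥ 1/2 - r`.

With `w = 1` the parts 2, 4 and 5 contain a one-sided form of the theorem of Kim and Murty: a lower bound for the
original sums suffices for the Riemann hypothesis, and bounds the order of vanishing from above.

In 3 to 6 the theorem of Rankin and Selberg and a bound for `F` in the half plane `Re s > 1` are used; both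
are derived from the newform `f` of the curve.

Proof.  With `v(u) = u w(u)` the sum `T_w` is `-∑ v(log p/log X) log (N_p/p) + O(1)`, so 1 and 2 follow from
theorems on such sums.  The limits for the Riesz weights come from the
limits of the Riesz means of `log (N_p / p)` of the orders `k` and `k + 1`, the theorem of Rankin and Selberg in the form
that `∑ (a_p² - p)/p²` converges, and Mertens' theorem.  Finally the averages of `T_w(X^v)` with the weight `φ(v)` and of
`T_φ(X^v)` with the weight `w(v)` coincide; with a Riesz weight `φ` this gives the value of every limit.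
-/

set_option autoImplicit false

namespace Pool.Agent.Results.MP_696deb_nt.TraceLaw

open Filter Topology Set MeasureTheory Classical CongruenceSubgroup UpperHalfPlane
open scoped MatrixGroups

/-- The rank of the group of rational points of `y² = x³ + a x + b`. -/
noncomputable def rank (a b : ℤ) : ℕ :=
  Module.finrank ℤ
    (WeierstrassCurve.Affine.Point
      (WeierstrassCurve.toAffine
        ({ a₁ := 0, a₂ := 0, a₃ := 0, a₄ := (a : ℚ), a₆ := (b : ℚ) } : WeierstrassCurve ℚ)))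

/-- `N_p`: the number of points of `y² = x³ + a x + b` modulo `p`, with the point at infinity. -/
noncomputable def numPoints (a b : ℤ) (p : ℕ) : ℕ :=
  Nat.card {q : ZMod p × ZMod p // q.2 ^ 2 = q.1 ^ 3 + (a : ZMod p) * q.1 + (b : ZMod p)} + 1

/-- `p` is a prime that does not divide `2 Δ`, where `Δ = -4 a³ - 27 b²`. -/
def Good (a b : ℤ) (p : ℕ) : Prop :=
  p.Prime ∧ ¬ ((p : ℤ) ∣ 2 * (-4 * a ^ 3 - 27 * b ^ 2))

/-- The trace of Frobenius `a_p = p + 1 - N_p`. -/
noncomputable def trace (a b : ℤ) (p : ℕ) : ℝ := (p : ℝ) + 1 - numPoints a b p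

/-- `F` is an entire function which for `Re s > 3/2` is the incomplete `L`-series
`∏_{p ∤ 2Δ} (1 - a_p p^{-s} + p^{1-2s})⁻¹`, `a_p = p + 1 - N_p`, of `y² = x³ + a x + b`. -/
def IsLSeries (a b : ℤ) (F : ℂ → ℂ) : Prop :=
  Differentiable ℂ F ∧ ∀ s : ℂ, (3 : ℝ) / 2 < s.re →
    HasProd (fun p : ℕ => if Good a b p then
      (1 - ((p : ℂ) + 1 - (numPoints a b p : ℂ)) * (p : ℂ) ^ (-s) + (p : ℂ) ^ (1 - 2 * s))⁻¹ else 1)
      (F s)

/-- The `n`-th Fourier coefficient of `f`. -/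
noncomputable def coef {N : ℕ} (f : CuspForm (Gamma0 N : Subgroup (GL (Fin 2) ℝ)) 2) (n : ℕ) : ℂ :=
  (qExpansion 1 f).coeff n

/-- `f ∈ S_2(Γ₀(N))` is the newform of the elliptic curve `E : y² = x³ + a x + b` of conductor `N`: the
Fourier coefficients `c(n)` of `f` are real with `c(1) = 1`, they satisfy the Hecke relations
`c(mn) = c(m) c(n)` for coprime `m`, `n` and `c(p^(j+2)) = c(p) c(p^(j+1)) - p c(p^j)` (without the last
term if `p ∣ N`), `c(p) = a_p = p + 1 - N_p` for all primes `p ∤ 2Δ`, `|c(p)| ≤ 2 √p` for all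
`p ∤ N` (Hasse) and `c(p) = 0, 1, -1` for `p ∣ N`. -/
structure IsNewformOf (a b : ℤ) (N : ℕ) (f : CuspForm (Gamma0 N : Subgroup (GL (Fin 2) ℝ)) 2) :
    Prop where
  one : coef f 1 = 1
  real : ∀ n, (coef f n).im = 0
  mul : ∀ m n : ℕ, Nat.Coprime m n → coef f (m * n) = coef f m * coef f n
  pow : ∀ p j : ℕ, p.Prime → coef f (p ^ (j + 2)) = coef f p * coef f (p ^ (j + 1)) -
      (if p ∣ N then 0 else (p : ℂ) * coef f (p ^ j))
  points : ∀ p : ℕ, Good a b p → coef f p = (p : ℂ) + 1 - (numPoints a b p : ℂ)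
  good : ∀ p : ℕ, p.Prime → ¬ p ∣ N → ‖coef f p‖ ≤ 2 * Real.sqrt p
  bad : ∀ p : ℕ, p.Prime → p ∣ N → coef f p = 0 ∨ coef f p = 1 ∨ coef f p = -1

/-- `T_w(X) = (1 / log X) ∑_{p ≤ X, p ∤ 2Δ} w(log p / log X) a_p log p / p` -/
noncomputable def T (a b : ℤ) (w : ℝ → ℝ) (X : ℝ) : ℝ :=
  (∑ p ∈ (Finset.range (⌊X⌋₊ + 1)).filter (Good a b),
    w (Real.log p / Real.log X) * (trace a b p * Real.log p / p)) / Real.log X

/-- The admissible weights: bounded and measurable, `0` for `u > 1`, not zero almost everywhere to the left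
of `1`, with `∫_0^1 w = 1`. -/
structure IsWeight (w : ℝ → ℝ) : Prop where
  measurable : Measurable w
  bounded : ∃ W : ℝ, ∀ u, |w u| ≤ W
  support : ∀ u, 1 < u → w u = 0
  top : ∀ κ : ℝ, κ < 1 → ¬ ∀ᵐ u : ℝ, u ∈ Ioo κ 1 → w u = 0
  mean : ∫ u in (0 : ℝ)..1, w u = 1

/-- The weight `(k + 1) (1 - u)^k`, `0 < u ≤ 1`, of the Riesz mean of order `k`. -/
noncomputable def riesz (k u : ℝ) : ℝ := if 0 < u ∧ u ≤ 1 then (k + 1) * (1 - u) ^ k else 0

/-- `F` has no zeros with `Re s > 1`. -/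
def NoZeros (F : ℂ → ℂ) : Prop := ∀ s : ℂ, 1 < s.re → F s ≠ 0

/-! ### translation -/

open Pool.Agent.Q7.TL (Wg TT MS tE rw' rw'_wg rw'_nonneg rw'_mean rw'_top)
open Pool.Agent.W263.BSD (PhiF pointCount GoodPrime)

theorem IsWeight.wg {w : ℝ → ℝ} (hw : IsWeight w) : ∃ W : ℝ, Wg w W := by
  obtain ⟨W, hW⟩ := hw.bounded
  exact ⟨W, hw.measurable, hW, hw.support⟩

theorem riesz_weight {k : ℝ} (hk : 0 < k) : IsWeight (riesz k) := by
  have h := rw'_wg hk
  exact ⟨h.meas, ⟨k + 1, h.bd⟩, h.supp, rw'_top hk, rw'_mean hk⟩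

theorem T_eq {a b : ℤ} (w : ℝ → ℝ) (t : ℝ) :
    T a b w (Real.exp t) = TT (tE a b) w t := by
  unfold T TT MS
  rw [Real.log_exp, Finset.sum_filter, Finset.sum_div]
  refine Finset.sum_congr rfl fun p _ => ?_
  unfold tE
  by_cases hg : Good a b p
  · have hg' : GoodPrime a b p := hg
    rw [if_pos hg, if_pos hg']
    have h1 : trace a b p = (p : ℝ) - pointCount a b p := by
      unfold trace numPoints
      push_cast
      rw [add_sub_add_right_eq_sub]
      rfl
    rw [h1]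
    ring
  · have hg' : ¬ GoodPrime a b p := hg
    rw [if_neg hg, if_neg hg', zero_div, mul_zero]

theorem ls_eq {a b : ℤ} {F : ℂ → ℂ} (h : IsLSeries a b F) : Pool.Agent.W263.BSD.IsLSeries a b F := by
  refine ⟨h.1, fun s hs => ?_⟩
  refine (congrArg (fun g => HasProd g (F s)) (funext fun p => ?_)).mp (h.2 s hs)
  unfold numPoints
  push_cast
  rw [add_sub_add_right_eq_sub]
  rfl

theorem hecke {a b : ℤ} {N : ℕ} {f : CuspForm (Gamma0 N : Subgroup (GL (Fin 2) ℝ)) 2}
    (hf : IsNewformOf a b N f) : Pool.Agent.TH941.Hecke f where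
  one := hf.one
  real := hf.real
  mul := hf.mul
  pow := hf.pow
  good := hf.good
  bad := fun p hp h => by
    rcases hf.bad p hp h with h1 | h1 | h1
    · have h2 : ‖coef f p‖ ≤ 1 := by rw [h1]; simp
      exact h2
    · have h2 : ‖coef f p‖ ≤ 1 := by rw [h1]; simp
      exact h2
    · have h2 : ‖coef f p‖ ≤ 1 := by rw [h1]; simp
      exact h2

theorem belongs {a b : ℤ} {N : ℕ} {f : CuspForm (Gamma0 N : Subgroup (GL (Fin 2) ℝ)) 2}
    (hf : IsNewformOf a b N f) : ∀ p : ℕ, GoodPrime a b p →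
      coef f p = (p : ℂ) - (pointCount a b p : ℂ) := by
  intro p hp
  have h1 := hf.points p hp
  unfold numPoints at h1
  push_cast at h1
  rw [add_sub_add_right_eq_sub] at h1
  exact h1

theorem no_zeros_of {a b : ℤ} {F : ℂ → ℂ} {α : ℝ}
    (h : ∀ s : ℂ, α < s.re → PhiF a b F s ≠ 0) {s : ℂ} (hs : 1 + α < s.re) : F s ≠ 0 := by
  intro h0
  refine h (s - 1) (by rw [Complex.sub_re, Complex.one_re]; linarith) ?_
  unfold PhiF
  rw [add_sub_cancel, h0, zero_mul]

/-- a statement for all large `t = log X` from one for all large `X` -/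
theorem ev_exp {P : ℝ → Prop} (h : ∀ᶠ X : ℝ in atTop, P X) : ∀ᶠ t : ℝ in atTop, P (Real.exp t) :=
  Real.tendsto_exp_atTop.eventually h

/-- a statement for all large `X` from one for all large `t = log X` -/
theorem ev_log {a b : ℤ} {w : ℝ → ℝ} {P : ℝ → Prop} (h : ∀ᶠ t : ℝ in atTop, P (TT (tE a b) w t)) :
    ∀ᶠ X : ℝ in atTop, P (T a b w X) := by
  filter_upwards [Real.tendsto_log_atTop.eventually (h.and (eventually_gt_atTop 0)),
    eventually_gt_atTop 0] with X h1 h2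
  have h3 := T_eq (a := a) (b := b) w (Real.log X)
  rw [Real.exp_log h2] at h3
  rw [h3]
  exact h1.1

theorem lim_iff {a b : ℤ} {w : ℝ → ℝ} {L : ℝ} :
    Tendsto (T a b w) atTop (𝓝 L) ↔ Tendsto (TT (tE a b) w) atTop (𝓝 L) := by
  constructor
  · intro h
    refine (h.comp Real.tendsto_exp_atTop).congr' ?_
    exact Eventually.of_forall fun t => T_eq w t
  · intro h
    refine (h.comp Real.tendsto_log_atTop).congr' ?_
    filter_upwards [eventually_gt_atTop 1] with X hX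
    have h3 := T_eq (a := a) (b := b) w (Real.log X)
    rw [Real.exp_log (by linarith)] at h3
    exact h3.symm

/-- a function with a limit is bounded from below -/
theorem below_of_lim {g : ℝ → ℝ} {L : ℝ} (h : Tendsto g atTop (𝓝 L)) {ε : ℝ} (hε : 0 < ε) :
    ∀ᶠ X : ℝ in atTop, L - ε ≤ g X :=
  h.eventually_const_le (by linarith)

/-- **Weighted sums of the traces of Frobenius of an elliptic curve over `ℚ`.** -/
theorem result (a b : ℤ) (hΔ : 4 * a ^ 3 + 27 * b ^ 2 ≠ 0) (F : ℂ → ℂ) (hF : IsLSeries a b F) :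
    ∃ m : ℕ, analyticOrderAt F 1 = m ∧
    -- one weight detects the zeros
    (∀ w : ℝ → ℝ, IsWeight w → ∀ α : ℝ, 0 ≤ α →
      (∃ C : ℝ, ∀ᶠ X : ℝ in atTop, |T a b w X| ≤ C * X ^ α) → ∀ s : ℂ, 1 + α < s.re → F s ≠ 0) ∧
    -- a one-sided bound for one weight detects the zeros
    (∀ w : ℝ → ℝ, IsWeight w → (∀ u, 0 ≤ w u) → ∀ α : ℝ, 0 ≤ α →
      (∃ C : ℝ, ∀ᶠ X : ℝ in atTop, -(C * X ^ α) ≤ T a b w X) → ∀ s : ℂ, 1 + α < s.re → F s ≠ 0) ∧
    -- the laws, with the newform of the curve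
    ∀ (N : ℕ) [NeZero N] (f : CuspForm (Gamma0 N : Subgroup (GL (Fin 2) ℝ)) 2), IsNewformOf a b N f →
      -- the two-sided law
      (∀ ρ : ℝ, List.TFAE [
        NoZeros F ∧ (m : ℝ) = ρ,
        ∃ w : ℝ → ℝ, IsWeight w ∧ Tendsto (T a b w) atTop (𝓝 (1 / 2 - ρ)),
        ∀ k : ℝ, 0 < k → Tendsto (T a b (riesz k)) atTop (𝓝 (1 / 2 - ρ))]) ∧
      -- the one-sided law
      (∀ ρ : ℝ, List.TFAE [
        NoZeros F ∧ (m : ℝ) ≤ ρ,
        ∃ w : ℝ → ℝ, IsWeight w ∧ (∀ u, 0 ≤ w u) ∧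
          ∀ ε : ℝ, 0 < ε → ∀ᶠ X : ℝ in atTop, 1 / 2 - ρ - ε ≤ T a b w X,
        ∀ k : ℝ, 0 < k → ∀ ε : ℝ, 0 < ε → ∀ᶠ X : ℝ in atTop, 1 / 2 - ρ - ε ≤ T a b (riesz k) X]) ∧
      -- the Riemann hypothesis
      List.TFAE [
        NoZeros F,
        ∃ w : ℝ → ℝ, IsWeight w ∧ (∀ u, 0 ≤ w u) ∧ ∃ C : ℝ, ∀ᶠ X : ℝ in atTop, C ≤ T a b w X,
        ∀ k : ℝ, 0 < k → Tendsto (T a b (riesz k)) atTop (𝓝 (1 / 2 - m))] ∧
      -- all smooth weights
      (NoZeros F → ∀ g : ℝ → ℝ, ContDiff ℝ 2 g → g 1 = 0 →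
        Tendsto (T a b fun u => if 0 < u ∧ u ≤ 1 then g u else 0) atTop
          (𝓝 ((1 / 2 - m) * ∫ u in (0 : ℝ)..1, g u))) ∧
      -- the rank of the group of rational points
      ((NoZeros F ∧ m = rank a b) ↔
        ∀ k : ℝ, 0 < k → Tendsto (T a b (riesz k)) atTop (𝓝 (1 / 2 - rank a b))) ∧
      ((NoZeros F ∧ m ≤ rank a b) ↔ ∃ w : ℝ → ℝ, IsWeight w ∧ (∀ u, 0 ≤ w u) ∧
        ∀ ε : ℝ, 0 < ε → ∀ᶠ X : ℝ in atTop, 1 / 2 - rank a b - ε ≤ T a b w X) := by
  have hF' := ls_eq hF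
  obtain ⟨m, hm⟩ := Pool.Agent.W263.BSD.order_finite hF'
  have two_zero : ∀ w : ℝ → ℝ, IsWeight w → ∀ α : ℝ, 0 ≤ α →
      (∃ C : ℝ, ∀ᶠ X : ℝ in atTop, |T a b w X| ≤ C * X ^ α) → ∀ s : ℂ, 1 + α < s.re → F s ≠ 0 := by
    rintro w hw α hα ⟨C, hC⟩ s hs
    obtain ⟨W, hW⟩ := hw.wg
    refine no_zeros_of (Pool.Agent.Q7.TL.omega_two hF' hW hw.top hα (C := C) ?_) hs
    filter_upwards [ev_exp hC, eventually_gt_atTop 0] with t h1 h2
    rw [T_eq w t, ← Real.exp_mul, mul_comm t α] at h1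
    exact h1
  have one_zero : ∀ w : ℝ → ℝ, IsWeight w → (∀ u, 0 ≤ w u) → ∀ α : ℝ, 0 ≤ α →
      (∃ C : ℝ, ∀ᶠ X : ℝ in atTop, -(C * X ^ α) ≤ T a b w X) → ∀ s : ℂ, 1 + α < s.re → F s ≠ 0 := by
    rintro w hw hw0 α hα ⟨C, hC⟩ s hs
    obtain ⟨W, hW⟩ := hw.wg
    refine no_zeros_of (Pool.Agent.Q7.TL.omega_one hF' hW hw0 hw.top hα (C := C) ?_) hs
    filter_upwards [ev_exp hC, eventually_gt_atTop 0] with t h1 h2
    rw [T_eq w t, ← Real.exp_mul, mul_comm t α] at h1
    exact h1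
  have nz_two : ∀ w : ℝ → ℝ, IsWeight w → ∀ L : ℝ, Tendsto (T a b w) atTop (𝓝 L) → NoZeros F := by
    intro w hw L hL s hs
    refine two_zero w hw 0 le_rfl ⟨|L| + 1, ?_⟩ s (by linarith)
    filter_upwards [hL.abs.eventually_le_const (show |L| < |L| + 1 by linarith)] with X h1
    rwa [Real.rpow_zero, mul_one]
  have nz_one : ∀ w : ℝ → ℝ, IsWeight w → (∀ u, 0 ≤ w u) → ∀ C : ℝ,
      (∀ᶠ X : ℝ in atTop, C ≤ T a b w X) → NoZeros F := by
    intro w hw hw0 C hC s hs
    refine one_zero w hw hw0 0 le_rfl ⟨-C, ?_⟩ s (by linarith)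
    filter_upwards [hC] with X h1
    rwa [Real.rpow_zero, mul_one, neg_neg]
  refine ⟨m, hm, two_zero, one_zero, ?_⟩
  intro N _ f hf
  have lim : NoZeros F → ∀ k : ℝ, 0 < k → Tendsto (T a b (riesz k)) atTop (𝓝 (1 / 2 - m)) :=
    fun hz k hk => lim_iff.2 (Pool.Agent.Q7.TL.riesz_law hΔ (hecke hf) (belongs hf) hF' hm hz hk)
  have two : ∀ ρ : ℝ, List.TFAE [
      NoZeros F ∧ (m : ℝ) = ρ,
      ∃ w : ℝ → ℝ, IsWeight w ∧ Tendsto (T a b w) atTop (𝓝 (1 / 2 - ρ)),
      ∀ k : ℝ, 0 < k → Tendsto (T a b (riesz k)) atTop (𝓝 (1 / 2 - ρ))] := by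
    intro ρ
    tfae_have 1 → 3 := by
      rintro ⟨hz, rfl⟩ k hk
      exact lim hz k hk
    tfae_have 3 → 2 := fun h => ⟨riesz 1, riesz_weight one_pos, h 1 one_pos⟩
    tfae_have 2 → 1 := by
      rintro ⟨w, hw, hlim⟩
      have hz := nz_two w hw _ hlim
      obtain ⟨W, hW⟩ := hw.wg
      exact ⟨hz, Pool.Agent.Q7.TL.order_eq hΔ (hecke hf) (belongs hf) hF' hm hz hW hw.mean
        (lim_iff.1 hlim)⟩
    tfae_finish
  have one : ∀ ρ : ℝ, List.TFAE [
      NoZeros F ∧ (m : ℝ) ≤ ρ,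
      ∃ w : ℝ → ℝ, IsWeight w ∧ (∀ u, 0 ≤ w u) ∧
        ∀ ε : ℝ, 0 < ε → ∀ᶠ X : ℝ in atTop, 1 / 2 - ρ - ε ≤ T a b w X,
      ∀ k : ℝ, 0 < k → ∀ ε : ℝ, 0 < ε → ∀ᶠ X : ℝ in atTop, 1 / 2 - ρ - ε ≤ T a b (riesz k) X] := by
    intro ρ
    tfae_have 1 → 3 := by
      rintro ⟨hz, hρ⟩ k hk ε hε
      filter_upwards [below_of_lim (lim hz k hk) hε] with X h1
      linarith
    tfae_have 3 → 2 := fun h => ⟨riesz 1, riesz_weight one_pos, rw'_nonneg one_pos, h 1 one_pos⟩
    tfae_have 2 → 1 := by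
      rintro ⟨w, hw, hw0, hU⟩
      have hz := nz_one w hw hw0 _ (hU 1 one_pos)
      obtain ⟨W, hW⟩ := hw.wg
      refine ⟨hz, Pool.Agent.Q7.TL.order_le hΔ (hecke hf) (belongs hf) hF' hm hz hW hw.mean
        fun ε hε => ?_⟩
      filter_upwards [ev_exp (hU ε hε), eventually_gt_atTop 0] with t h1 h2
      rwa [T_eq w t] at h1
    tfae_finish
  refine ⟨two, one, ?_, ?_, ?_, ?_⟩
  · tfae_have 1 → 3 := lim
    tfae_have 3 → 2 := fun h => ⟨riesz 1, riesz_weight one_pos, rw'_nonneg one_pos, _,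
      below_of_lim (h 1 one_pos) one_pos⟩
    tfae_have 2 → 1 := by
      rintro ⟨w, hw, hw0, C, hC⟩
      exact nz_one w hw hw0 C hC
    tfae_finish
  · intro hz g hg h1
    exact lim_iff.2 (Pool.Agent.Q7.TL.smooth_law hΔ (hecke hf) (belongs hf) hF' hm hz hg h1)
  · have h1 := (two (rank a b : ℝ)).out 0 2
    rw [← h1, Nat.cast_inj]
  · have h1 := (one (rank a b : ℝ)).out 0 1
    rw [← h1, Nat.cast_le]

end Pool.Agent.Results.MP_696deb_nt.TraceLaw
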