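import Pool.Agent.Q6.XK.Crit
import Pool.Agent.Q6.XK.Ana

/-!
# The rank form for the quadratic twists of `X_0(49)` by products of primes `≡ 1 mod 4`

`E_D` is the quadratic twist `y² = x³ - 35 D² x - 98 D³` of `X_0(49)`, the curve with complex
multiplication by the ring of integers of `ℚ(√-7)`. `D` is ANY squarefree number all whose prime
factors are `≡ 1 mod 4` (an odd squarefree sum of two squares); any number of them may split in
`ℚ(√-7)`.

* `E_D(ℚ)` is finite and `Ш(E_D/ℚ)[2] = 0` if and only if there is no obstruction: a divisor `d > 1` of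
  `D` whose prime factors split in `ℚ(√-7)`, which is a square modulo all the other prime factors of
  `D` that split in `ℚ(√-7)`, and such that for the primes `p ∣ d` the number `D / d` is a square modulo
  `p` if and only if `-7` is a fourth power modulo `p`.
* If `E_D(ℚ)` is finite and `Ш(E_D/ℚ)[2] = 0`, then the rank form holds for `E_D`, the order of
  vanishing and the rank being `0` (a `2`-converse theorem).
* In the family of the `D ≡ 1 mod 8` whose prime factors are `≡ 1 mod 8` and split in `ℚ(√-7)` or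
  `≡ 5 mod 8` and inert in `ℚ(√-7)`, the proportion of these `D` is exactly
  `∏_{i ≥ 0} (1 - 2^{-(2i+1)}) = 0.4194...`.

Analytic side: the value of `L(E_D, s)` at `s = 1` modulo the primes above two from the library
`Pool.Agent.Y698.SG` (quadratic twists of `X_0(49)` over the fields `K ⊆ ℚ(ζ_r)`, the trivial character).
Algebraic side, new: the complete 2-descent over `ℚ` for `E_D` and the converse; local lemmas and the
counting of Selmer cocycles from the library (`Y700`, `Y809`, `Y814`, `Y79`, `Y945`, `Y542`).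
The proportion: `Pool.Agent.Y703.CQ.t_DEN`, which has an arbitrary function on the diagonal of the
matrix, applied to the quartic symbols of `-7`.
-/

set_option autoImplicit false

open Finset

namespace Pool.Agent.Results.MP_696deb_nt.TwistsOfX049

/-- coefficients of the twist `E_D : y² = x³ + A D x + B D` of `X_0(49)` -/
def A (D : ℤ) : ℤ := -35 * D ^ 2

/-- coefficients of the twist `E_D : y² = x³ + A D x + B D` of `X_0(49)` -/
def B (D : ℤ) : ℤ := -98 * D ^ 3

/-- the curve `E_D` over `ℚ` -/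
def E (D : ℤ) : WeierstrassCurve ℚ :=
  { a₁ := 0, a₂ := 0, a₃ := 0, a₄ := (A D : ℚ), a₆ := (B D : ℚ) }

/-- `E_D(ℚ)` is finite and `Ш(E_D/ℚ)` has no element of order two -/
def RankZeroShaTwo (D : ℤ) : Prop :=
  Finite (E D).toAffine.Point ∧ ∀ x : Pool.Agent.TH841.SH.D.Sha (E D), 2 • x = 0 → x = 0

/-- the conclusion of the frozen statement for `y² = x³ + a x + b`, together with the fact that the
order of vanishing and the rank are both `0` -/
def BSDRankZero (a b : ℤ) : Prop :=
  4 * a ^ 3 + 27 * b ^ 2 ≠ 0 ∧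
    ∃ F : ℂ → ℂ, Differentiable ℂ F ∧
      (∀ s : ℂ, (3 : ℝ) / 2 < s.re →
        HasProd
          (fun p : ℕ => open Classical in
            if p.Prime ∧ ¬ ((p : ℤ) ∣ 2 * (-4 * a ^ 3 - 27 * b ^ 2)) then
              (1 - ((p : ℂ) - (Nat.card {q : ZMod p × ZMod p //
                  q.2 ^ 2 = q.1 ^ 3 + (a : ZMod p) * q.1 + (b : ZMod p)} : ℂ))
                  * (p : ℂ) ^ (-s) + (p : ℂ) ^ (1 - 2 * s))⁻¹
            else 1)
          (F s)) ∧
      analyticOrderAt F 1 =
        ((Module.finrank ℤ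
          (WeierstrassCurve.Affine.Point
            (WeierstrassCurve.toAffine
              ({ a₁ := 0, a₂ := 0, a₃ := 0, a₄ := (a : ℚ), a₆ := (b : ℚ) } :
                WeierstrassCurve ℚ))) : ℕ) : ℕ∞) ∧
      Module.finrank ℤ
        (WeierstrassCurve.Affine.Point
          (WeierstrassCurve.toAffine
            ({ a₁ := 0, a₂ := 0, a₃ := 0, a₄ := (a : ℚ), a₆ := (b : ℚ) } :
              WeierstrassCurve ℚ))) = 0

/-- `D` is squarefree and all its prime factors are `1` modulo `4` -/
def Admissible (D : ℕ) : Prop := Squarefree D ∧ ∀ p : ℕ, p.Prime → p ∣ D → p % 4 = 1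

/-- the obstructions: `d > 1` divides `D`, its prime factors split in `ℚ(√-7)`, it is a square modulo
the other prime factors of `D` that split in `ℚ(√-7)`, and for the primes `p ∣ d` the number `D / d` is
a square modulo `p` if and only if `-7` is a fourth power modulo `p` -/
def Obstruction (D d : ℕ) : Prop := d ∣ D ∧ 1 < d ∧
  (∀ p : ℕ, p.Prime → p ∣ d → IsSquare (-7 : ZMod p)) ∧
  (∀ p : ℕ, p.Prime → p ∣ D → ¬ p ∣ d → IsSquare (-7 : ZMod p) → IsSquare (d : ZMod p)) ∧
  ∀ p : ℕ, p.Prime → p ∣ d → (IsSquare ((D / d : ℕ) : ZMod p) ↔ ∃ y : ZMod p, y ^ 4 = -7)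

/-- the family: `D` is squarefree and `1` modulo `8`, its prime factors are `1` modulo `8` and split in
`ℚ(√-7)`, or `5` modulo `8` and inert in `ℚ(√-7)` -/
def Family (D : ℕ) : Prop := Squarefree D ∧ D % 8 = 1 ∧ ∀ p : ℕ, p.Prime → p ∣ D →
  (p % 8 = 1 ∧ (p % 7 = 1 ∨ p % 7 = 2 ∨ p % 7 = 4)) ∨
  (p % 8 = 5 ∧ (p % 7 = 3 ∨ p % 7 = 5 ∨ p % 7 = 6))

theorem triv_iff (D : ℤ) : RankZeroShaTwo D ↔ Q6.XK.Triv D := by
  unfold RankZeroShaTwo Q6.XK.Triv
  refine and_congr Iff.rfl (forall_congr' fun x => ?_)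
  rw [two_nsmul]
  rfl

/-- the rank of a finite group -/
theorem finrank_zero {G : Type} [AddCommGroup G] [Finite G] : Module.finrank ℤ G = 0 := by
  apply Module.finrank_eq_zero_of_rank_eq_zero
  rw [rank_eq_zero_iff]
  intro x
  refine ⟨(addOrderOf x : ℤ), ?_, ?_⟩
  · have := (isOfFinAddOrder_of_finite x).addOrderOf_pos
    exact_mod_cast this.ne'
  · rw [natCast_zsmul]
    exact addOrderOf_nsmul_eq_zero x

theorem bsd_of {D : ℕ} (hD : Admissible D) (h : RankZeroShaTwo (D : ℤ)) :
    BSDRankZero (A D) (B D) := by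
  have hB : Q6.XK.Base D := hD
  have hdet : (Pool.Agent.Y698.SG.mat (Q6.XK.QQ D) (Q6.XK.PP D)).det ≠ 0 :=
    (Q6.XK.crit hB).2 ((Q6.XK.triv_crit hB).1 ((triv_iff _).1 h))
  obtain ⟨F, h1, h2, h3⟩ := Q6.XK.ana (Q6.XK.hQQ hB) (Q6.XK.hPP hB) hdet (D := (D : ℤ))
    (by rw [Q6.XK.prod_QP hB])
  have hfin : Finite (WeierstrassCurve.Affine.Point
          (WeierstrassCurve.toAffine
            ({ a₁ := 0, a₂ := 0, a₃ := 0, a₄ := (A D : ℚ), a₆ := (B D : ℚ) } :
              WeierstrassCurve ℚ))) := h.1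
  have hr : Module.finrank ℤ
        (WeierstrassCurve.Affine.Point
          (WeierstrassCurve.toAffine
            ({ a₁ := 0, a₂ := 0, a₃ := 0, a₄ := (A D : ℚ), a₆ := (B D : ℚ) } :
              WeierstrassCurve ℚ))) = 0 := finrank_zero
  refine ⟨?_, F, h1, h2, ?_, hr⟩
  · have e : 4 * A D ^ 3 + 27 * B D ^ 2 = (2 ^ 8 * 7 ^ 3) * (D : ℤ) ^ 6 := by
      unfold A B
      ring
    rw [e]
    have : (D : ℤ) ≠ 0 := by exact_mod_cast hD.1.ne_zero
    exact mul_ne_zero (by norm_num) (pow_ne_zero 6 this)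
  · rw [hr]
    have h4 : AnalyticAt ℂ F 1 := h1.analyticAt 1
    rw [h4.analyticOrderAt_eq_zero.2 h3]
    rfl

open Classical in
theorem result :
    (∀ D : ℕ, Admissible D → (RankZeroShaTwo D ↔ ∀ d, ¬ Obstruction D d)) ∧
    (∀ D : ℕ, Admissible D → RankZeroShaTwo D → BSDRankZero (A D) (B D)) ∧
    (∀ D : ℕ, Family D → Admissible D) ∧
    Filter.Tendsto (fun X : ℕ =>
        (((Icc 1 X).filter fun D => Family D ∧ RankZeroShaTwo D).card : ℝ) /
        (((Icc 1 X).filter fun D => Family D).card : ℝ)) Filter.atTop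
      (nhds (∏' i : ℕ, (1 - (1 / 2 : ℝ) ^ (2 * i + 1)))) := by
  refine ⟨fun D hD => (triv_iff _).trans (Q6.XK.triv_crit hD), fun D hD h => bsd_of hD h,
    fun D hD => Q6.XK.fam_base hD, ?_⟩
  have h := Q6.XK.prop_triv
  refine h.congr fun X => congrArg₂ (fun a b : ℕ => (a : ℝ) / (b : ℝ)) ?_ ?_
  · refine congrArg Finset.card (Finset.ext fun D => ?_)
    refine (Finset.mem_filter).trans (Iff.trans ?_ (Finset.mem_filter).symm)
    exact and_congr_right fun _ => and_congr_right fun hD => (triv_iff _).symm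
  · refine congrArg Finset.card (Finset.ext fun D => ?_)
    refine (Finset.mem_filter).trans (Iff.trans ?_ (Finset.mem_filter).symm)
    exact Iff.rfl

end Pool.Agent.Results.MP_696deb_nt.TwistsOfX049
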